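import Pool.Agent.Helper35.SD.Defs

/-!
Block PO: prime parts of modules over Noetherian central algebras, and modules without uniform
submodules under Ore type restriction and extension.
-/

namespace Pool.Agent.Helper56.NB

open Pool.Agent.H35SD

universe u v

theorem exists_prime_part {C₀ Λ₀ V₀ : Type u} [CommRing C₀] [IsNoetherianRing C₀] [Ring Λ₀]
    [Algebra C₀ Λ₀] [AddCommGroup V₀] [Module Λ₀ V₀] [Nontrivial V₀] :
    ∃ (p : Ideal C₀) (W : Submodule Λ₀ V₀), p.IsPrime ∧ W ≠ ⊥ ∧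
      (∀ c ∈ p, ∀ w ∈ W, algebraMap C₀ Λ₀ c • w = 0) ∧
      ∀ c, c ∉ p → ∀ w ∈ W, algebraMap C₀ Λ₀ c • w = 0 → w = 0 := by
  let ann : V₀ → Ideal C₀ := fun v =>
    { carrier := {c | algebraMap C₀ Λ₀ c • v = 0}
      add_mem' := by
        intro a b ha hb
        change algebraMap C₀ Λ₀ (a + b) • v = 0
        rw [map_add, add_smul, ha, hb, add_zero]
      zero_mem' := by
        change algebraMap C₀ Λ₀ 0 • v = 0
        rw [map_zero, zero_smul]
      smul_mem' := by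
        intro a b hb
        change algebraMap C₀ Λ₀ (a * b) • v = 0
        rw [map_mul, mul_smul, hb, smul_zero] }
  have hmem : ∀ v c, c ∈ ann v ↔ algebraMap C₀ Λ₀ c • v = 0 := fun _ _ => Iff.rfl
  obtain ⟨v0, hv0⟩ := exists_ne (0 : V₀)
  obtain ⟨p, ⟨v, hv, rfl⟩, hmax⟩ := set_has_maximal_iff_noetherian.mpr
    (inferInstance : IsNoetherian C₀ C₀) {I | ∃ v, v ≠ 0 ∧ I = ann v} ⟨_, v0, hv0, rfl⟩
  have hstep : ∀ w, w ≠ 0 → ann v ≤ ann w → ann w = ann v := by
    intro w hw hle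
    by_contra hne
    exact hmax _ ⟨w, hw, rfl⟩ (lt_of_le_of_ne hle (Ne.symm hne))
  let W : Submodule Λ₀ V₀ :=
    { carrier := {w | ∀ c ∈ ann v, algebraMap C₀ Λ₀ c • w = 0}
      add_mem' := by
        intro a b ha hb c hc
        rw [smul_add, ha c hc, hb c hc, add_zero]
      zero_mem' := by
        intro c _
        rw [smul_zero]
      smul_mem' := by
        intro l w hw c hc
        rw [← mul_smul, Algebra.commutes, mul_smul, hw c hc, smul_zero] }
  have hvW : v ∈ W := fun c hc => hc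
  refine ⟨ann v, W, ?_, ?_, fun c hc w hw => hw c hc, ?_⟩
  · refine ⟨?_, ?_⟩
    · intro htop
      have h1 : (1 : C₀) ∈ ann v := by rw [htop]; trivial
      rw [hmem, map_one, one_smul] at h1
      exact hv h1
    · intro a b hab
      by_cases hb : b ∈ ann v
      · exact Or.inr hb
      · left
        have hw : algebraMap C₀ Λ₀ b • v ≠ 0 := fun h => hb h
        have hle : ann v ≤ ann (algebraMap C₀ Λ₀ b • v) := by
          intro c hc
          rw [hmem] at hc ⊢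
          rw [← mul_smul, Algebra.commutes, mul_smul, hc, smul_zero]
        have h1 : a ∈ ann (algebraMap C₀ Λ₀ b • v) := by
          rw [hmem] at hab ⊢
          rw [← mul_smul, ← map_mul]
          exact hab
        rwa [hstep _ hw hle] at h1
  · intro hbot
    have h1 : v ∈ (⊥ : Submodule Λ₀ V₀) := hbot ▸ hvW
    exact hv ((Submodule.mem_bot _).mp h1)
  · intro c hc w hw hcw
    by_contra hw0
    have hle : ann v ≤ ann w := fun c hc => hw c hc
    apply hc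
    rw [← hstep w hw0 hle]
    exact hcw

theorem noUnif_restrict {Λ Λ' M : Type u} [Ring Λ] [Ring Λ'] (φ : Λ →+* Λ') [AddCommGroup M]
    [Module Λ' M] (D : Set Λ) (hmul : ∀ d ∈ D, ∀ d' ∈ D, d * d' ∈ D)
    (hcen : ∀ d ∈ D, ∀ r : Λ', φ d * r = r * φ d)
    (hinj : ∀ d ∈ D, ∀ m : M, φ d • m = 0 → m = 0)
    (hD : ∀ r : Λ', ∃ d ∈ D, ∃ l : Λ, φ d * r = φ l) (h : NoUnif Λ' M) :
    letI : Module Λ M := Module.compHom M φ
    NoUnif Λ M := by
  letI : Module Λ M := Module.compHom M φ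
  have hsm : ∀ (l : Λ) (m : M), l • m = φ l • m := fun _ _ => rfl
  intro V hV
  obtain ⟨e0, he0, -⟩ := hD 0
  set V' : Submodule Λ' M := Submodule.span Λ' (V : Set M) with hV'
  -- every element of `V'` has a multiple in `V`
  have key : ∀ v ∈ V', ∃ d ∈ D, φ d • v ∈ V := by
    intro v hv
    refine Submodule.span_induction (p := fun v _ => ∃ d ∈ D, φ d • v ∈ V) ?_ ?_ ?_ ?_ hv
    · intro x hx
      exact ⟨e0, he0, V.smul_mem e0 hx⟩
    · exact ⟨e0, he0, by rw [smul_zero]; exact V.zero_mem⟩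
    · rintro x y _ _ ⟨d, hd, hx⟩ ⟨d', hd', hy⟩
      refine ⟨d * d', hmul d hd d' hd', ?_⟩
      rw [smul_add]
      apply V.add_mem
      · have e : φ (d * d') • x = d' • (φ d • x) := by
          rw [hsm, map_mul, hcen d hd, mul_smul]
        rw [e]
        exact V.smul_mem d' hx
      · have e : φ (d * d') • y = d • (φ d' • y) := by
          rw [hsm, map_mul, mul_smul]
        rw [e]
        exact V.smul_mem d hy
    · rintro r x _ ⟨d, hd, hx⟩
      obtain ⟨e, he, l, hl⟩ := hD r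
      refine ⟨e * d, hmul e he d hd, ?_⟩
      have e1 : φ (e * d) • (r • x) = l • (φ d • x) := by
        rw [hsm, ← hl, map_mul, mul_smul, mul_smul, ← mul_smul (φ d) r, hcen d hd, mul_smul]
      rw [e1]
      exact V.smul_mem l hx
  have hV'ne : V' ≠ ⊥ := by
    intro hbot
    apply hV
    rw [Submodule.eq_bot_iff]
    intro x hx
    have h1 : x ∈ V' := Submodule.subset_span hx
    rw [hbot, Submodule.mem_bot] at h1
    exact h1
  obtain ⟨V₁, V₂, h1, h2, hn1, hn2, hinf⟩ := h V' hV'ne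
  let R : Submodule Λ' M → Submodule Λ M := fun U =>
    { carrier := {x | x ∈ V ∧ x ∈ U}
      add_mem' := fun ha hb => ⟨V.add_mem ha.1 hb.1, U.add_mem ha.2 hb.2⟩
      zero_mem' := ⟨V.zero_mem, U.zero_mem⟩
      smul_mem' := fun l x hx => ⟨V.smul_mem l hx.1, U.smul_mem (φ l) hx.2⟩ }
  have hR : ∀ U x, x ∈ R U ↔ x ∈ V ∧ x ∈ U := fun _ _ => Iff.rfl
  have hne : ∀ U ≤ V', U ≠ ⊥ → R U ≠ ⊥ := by
    intro U hU hUne hbot
    obtain ⟨v, hv, hv0⟩ := Submodule.exists_mem_ne_zero_of_ne_bot hUne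
    obtain ⟨d, hd, hdv⟩ := key v (hU hv)
    have h3 : φ d • v ∈ R U := (hR _ _).mpr ⟨hdv, U.smul_mem _ hv⟩
    rw [hbot, Submodule.mem_bot] at h3
    exact hv0 (hinj d hd v h3)
  refine ⟨R V₁, R V₂, fun x hx => hx.1, fun x hx => hx.1, hne V₁ h1 hn1, hne V₂ h2 hn2, ?_⟩
  rw [Submodule.eq_bot_iff]
  intro x hx
  have h3 : x ∈ V₁ ⊓ V₂ := ⟨hx.1.2, hx.2.2⟩
  rw [hinf, Submodule.mem_bot] at h3
  exact h3

theorem noUnif_extend {Λ Λ' M W : Type u} [Ring Λ] [Ring Λ'] (φ : Λ →+* Λ') [AddCommGroup M]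
    [Module Λ' M] [AddCommGroup W] [Module Λ W] (ι : W →+ M)
    (hι : ∀ (l : Λ) (w : W), ι (l • w) = φ l • ι w) (hιi : Function.Injective ι)
    (D : Set Λ) (hmul : ∀ d ∈ D, ∀ d' ∈ D, d * d' ∈ D)
    (hcen : ∀ d ∈ D, ∀ r : Λ', φ d * r = r * φ d)
    (hinj : ∀ d ∈ D, ∀ m : M, φ d • m = 0 → m = 0)
    (hD : ∀ r : Λ', ∃ d ∈ D, ∃ l : Λ, φ d * r = φ l)
    (hM : ∀ m : M, ∃ d ∈ D, ∃ w : W, φ d • m = ι w) (h : NoUnif Λ W) :
    NoUnif Λ' M := by
  intro V hV
  obtain ⟨e0, he0, -⟩ := hD 0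
  let P : Submodule Λ W :=
    { carrier := {w | ι w ∈ V}
      add_mem' := by
        intro a b ha hb
        change ι (a + b) ∈ V
        rw [map_add]
        exact V.add_mem ha hb
      zero_mem' := by
        change ι 0 ∈ V
        rw [map_zero]
        exact V.zero_mem
      smul_mem' := by
        intro l w hw
        change ι (l • w) ∈ V
        rw [hι]
        exact V.smul_mem _ hw }
  have hP : ∀ w, w ∈ P ↔ ι w ∈ V := fun _ => Iff.rfl
  have hPne : P ≠ ⊥ := by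
    intro hbot
    obtain ⟨v, hv, hv0⟩ := Submodule.exists_mem_ne_zero_of_ne_bot hV
    obtain ⟨d, hd, w, hw⟩ := hM v
    have h1 : w ∈ P := by
      rw [hP, ← hw]
      exact V.smul_mem _ hv
    rw [hbot, Submodule.mem_bot] at h1
    rw [h1, map_zero] at hw
    exact hv0 (hinj d hd v hw)
  obtain ⟨W₁, W₂, h1, h2, hn1, hn2, hinf⟩ := h P hPne
  let E : Submodule Λ W → Submodule Λ' M := fun U => Submodule.span Λ' (ι '' (U : Set W))
  have key : ∀ U : Submodule Λ W, ∀ v ∈ E U, ∃ d ∈ D, ∃ w ∈ U, φ d • v = ι w := by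
    intro U v hv
    refine Submodule.span_induction (p := fun v _ => ∃ d ∈ D, ∃ w ∈ U, φ d • v = ι w)
      ?_ ?_ ?_ ?_ hv
    · rintro _ ⟨w, hw, rfl⟩
      exact ⟨e0, he0, e0 • w, U.smul_mem e0 hw, (hι e0 w).symm⟩
    · exact ⟨e0, he0, 0, U.zero_mem, by rw [smul_zero, map_zero]⟩
    · rintro x y _ _ ⟨d, hd, w, hw, hx⟩ ⟨d', hd', w', hw', hy⟩
      refine ⟨d * d', hmul d hd d' hd', d' • w + d • w',
        U.add_mem (U.smul_mem _ hw) (U.smul_mem _ hw'), ?_⟩
      rw [smul_add, map_add, hι, hι, ← hx, ← hy, map_mul]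
      congr 1
      · rw [hcen d hd, mul_smul]
      · rw [mul_smul]
    · rintro r x _ ⟨d, hd, w, hw, hx⟩
      obtain ⟨e, he, l, hl⟩ := hD r
      refine ⟨e * d, hmul e he d hd, l • w, U.smul_mem _ hw, ?_⟩
      rw [hι, ← hx, ← hl, map_mul, mul_smul, mul_smul, ← mul_smul (φ d) r, hcen d hd, mul_smul]
  have hne : ∀ U : Submodule Λ W, U ≠ ⊥ → E U ≠ ⊥ := by
    intro U hU hbot
    obtain ⟨w, hw, hw0⟩ := Submodule.exists_mem_ne_zero_of_ne_bot hU
    have h3 : ι w ∈ E U := Submodule.subset_span ⟨w, hw, rfl⟩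
    rw [hbot, Submodule.mem_bot] at h3
    exact hw0 (hιi (h3.trans (map_zero ι).symm))
  have hle : ∀ U ≤ P, E U ≤ V := by
    intro U hU
    rw [Submodule.span_le]
    rintro _ ⟨w, hw, rfl⟩
    exact hU hw
  refine ⟨E W₁, E W₂, hle W₁ h1, hle W₂ h2, hne W₁ hn1, hne W₂ hn2, ?_⟩
  rw [Submodule.eq_bot_iff]
  rintro v ⟨hv1, hv2⟩
  obtain ⟨d, hd, w, hw, hx⟩ := key W₁ v hv1
  obtain ⟨d', hd', w', hw', hy⟩ := key W₂ v hv2
  have e1 : φ (d * d') • v = ι (d • w') := by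
    rw [map_mul, mul_smul, hy, hι]
  have e2 : φ (d * d') • v = ι (d' • w) := by
    rw [map_mul, hcen d hd, mul_smul, hx, hι]
  have e3 : d • w' = d' • w := hιi (e1.symm.trans e2)
  have e4 : d • w' ∈ W₁ ⊓ W₂ := ⟨by rw [e3]; exact W₁.smul_mem _ hw, W₂.smul_mem _ hw'⟩
  rw [hinf, Submodule.mem_bot] at e4
  rw [e4, map_zero] at e1
  exact hinj _ (hmul d hd d' hd') v e1

end Pool.Agent.Helper56.NB
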